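import Mathlib
import Pool.Agent.R951.FM.Defs
import Pool.Agent.R951.FM.Fin

/-!
# Free multiplicative squares of freely infinitely divisible laws on the half-line

All definitions (`CompactProb`, `OnHalfLine`, `FreelyInfDiv`, `FreeRegular`, `IsMulConv`, ...) are in
`Pool/Agent/R951/FM/Defs.lean`.
-/

set_option autoImplicit false

open MeasureTheory

namespace Pool.Agent.Results.MP_d2a342_pr.SquareWithoutRegularity

open Pool.Agent.R951.FM

/-- There is a compactly supported law `μ` on `[0, ∞)` which is `⊞`-infinitely divisible and is not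
free regular, and whose free multiplicative square `ν = μ ⊠ μ` (a compactly supported law on
`[0, ∞)`) is `⊞`-infinitely divisible. -/
theorem result : ∃ μ ν : Measure ℝ,
    CompactProb μ ∧ OnHalfLine μ ∧ FreelyInfDiv μ ∧ ¬ FreeRegular μ ∧
    CompactProb ν ∧ OnHalfLine ν ∧ IsMulConv μ μ ν ∧ FreelyInfDiv ν :=
  main

end Pool.Agent.Results.MP_d2a342_pr.SquareWithoutRegularity
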